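import Pool.Agent.H225.EP3

/-!
# Exact patterns of places with almost prime `m` and `4m + 1`, at integers with restricted digits

Let `b ≥ 2` be a base and let the digits of an integer `n < b^K` be restricted: the `i`-th digit belongs
to a set `A i`, where the sets `A i` are arbitrary, depend on the place `i < K`, and have the only
property that the number `∏ |A i|` of these integers is at least `e^{-δK} b^K`, where the constant
`δ > 0` does not depend on `b`.  Let `N` be an arbitrary base point up to a fixed power of `b^K`, and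
`m = N + n`.  We consider ALL patterns `H` of `k` elements in an interval `[0, c K^2]` such that the
product of the numbers `n + h` and `w (n + h)`, `h ∈ H`, with `w m = 4m + 1`, has no fixed prime divisor:
the length of the pattern may be comparable to the expected mean distance of the integers near `m` for
which `m` and `w m` are prime.

The number of the `n` such that all `m + h` and `w (m + h)`, `h ∈ H`, are prime is at most
`C V(H) ∏ |A i|`, with the sieve product `V(H)` of the pattern.  And for at least `κ V(H) ∏ |A i|` of the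
`n` the integers `j` in `[m, m + c K^2]` for which neither `j` nor `w j` has a prime factor
`p ≤ b^{K/r}` are EXACTLY the `m + h`, `h ∈ H`, and then both have at most `r` prime factors; in
particular for no other `j` the numbers `j` and `w j` are both prime.

The method is a Brun–Hooley sieve with weights, whose level of distribution is obtained from the Fourier
transform of the set of the integers with restricted digits at rationals (large sieve in blocks of
digits), see `Pool/Agent/Y816/PD`; the other places are excluded by the upper bound for the patterns with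
`k + 1` elements and an average of the sieve products (`Pool/Agent/H225/EP2`).
-/

set_option autoImplicit false

namespace Pool.Agent.Results.MP_3df474_nt.ExactPatterns

open Finset Filter Polynomial

/-- The second number `4m + 1`. -/
def w (m : ℕ) : ℕ := 4 * m + 1

/-- `H` is admissible: the product of the `n + h` and `w (n + h)`, `h ∈ H`, has no fixed prime
divisor. -/
def Admissible (H : Finset ℕ) : Prop :=
  ∀ p : ℕ, p.Prime → ∃ n : ℕ, ∀ h ∈ H, ¬ p ∣ n + h ∧ ¬ p ∣ w (n + h)

open Classical in
/-- The number of the `n` modulo `p` for which `p` divides one of the `n + h` or `w (n + h)`,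
`h ∈ H`. -/
noncomputable def nu (H : Finset ℕ) (p : ℕ) : ℕ :=
  ((range p).filter (fun n : ℕ => ∃ h ∈ H, p ∣ n + h ∨ p ∣ w (n + h))).card

/-- The product of `1 - nu p / p` over the primes `p ≤ x`. -/
noncomputable def V (H : Finset ℕ) (x : ℕ) : ℝ :=
  ∏ p ∈ (Icc 1 x).filter Nat.Prime, (1 - (nu H p : ℝ) / p)

open Classical in
/-- The number of the `n < b ^ K` in `T` whose `i`-th digit in base `b` belongs to `A i` for all
`i < K`. -/
noncomputable def count (b K : ℕ) (A : ℕ → Finset ℕ) (T : Set ℕ) : ℕ :=
  ((range (b ^ K)).filter (fun n => (∀ i < K, n / b ^ i % b ∈ A i) ∧ n ∈ T)).card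

/-- The number of choices of the digits. -/
noncomputable def choices (K : ℕ) (A : ℕ → Finset ℕ) : ℝ := ∏ i ∈ range K, ((A i).card : ℝ)

/-- All prime factors of `m` are larger than `z ^ (1 / r)`. -/
def Rough (r z m : ℕ) : Prop := ∀ p : ℕ, p.Prime → p ∣ m → z < p ^ r

open Pool.Agent.Y816.PD (NA ND ND_sub)
open Pool.Agent.W123.RU.Poly (Sys)
open Pool.Agent.W182.PW (lin lin_eval)
open Pool.Agent.TH977.PW (sys_lin)
open Pool.Agent.H225.EP (VV nuV exactV nt_lin)

/-- the leading coefficients -/
def al : Fin 2 → ℕ := ![1, 4]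

/-- the constant terms -/
def be : Fin 2 → ℤ := ![0, 1]

/-- the values -/
def v : Fin 2 → ℕ → ℕ := ![fun m => m, w]

lemma al_pos (i : Fin 2) : 0 < al i := by
  fin_cases i <;> decide

lemma al_inj : Function.Injective al := by
  intro i j h
  fin_cases i <;> fin_cases j <;> simp [al] at h ⊢

lemma sys : Sys (fun i => lin (al i) (be i)) := by
  refine sys_lin al be al_pos (fun i => ?_) (fun i j h _ => al_inj h) (fun p hp => ?_)
  · fin_cases i
    · exact isCoprime_one_left
    · change IsCoprime ((4 : ℕ) : ℤ) (1)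
      refine ⟨0, 1, by norm_num⟩
  · have hp2 := hp.two_le
    by_cases h5 : p = 5
    · subst h5
      refine ⟨2, fun i hi => ?_⟩
      fin_cases i <;> norm_num [al, be] at hi
    · refine ⟨1, fun i hi => ?_⟩
      fin_cases i
      · have h1 : (p : ℤ) ∣ 1 := by simpa [al, be] using hi
        have h2 : p ∣ 1 := by exact_mod_cast h1
        exact hp.one_lt.ne' (Nat.dvd_one.1 h2)
      · have h1 : (p : ℤ) ∣ 5 := by
          have e : ((al 1 : ℕ) : ℤ) * ((1 : ℕ) : ℤ) + be 1 = 5 := by norm_num [al, be]
          rw [← e]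
          exact hi
        have h2 : p ∣ 5 := by exact_mod_cast h1
        exact h5 ((Nat.prime_dvd_prime_iff_eq hp (by norm_num)).1 h2)

lemma hv (i : Fin 2) (m : ℕ) : ((lin (al i) (be i)).eval (m : ℤ)).natAbs = v i m := by
  fin_cases i
  · change ((lin 1 0).eval (m : ℤ)).natAbs = m
    rw [lin_eval]
    simp
  · change ((lin 4 (1)).eval (m : ℤ)).natAbs = w m
    rw [lin_eval]
    unfold w
    have e : ((4 : ℕ) : ℤ) * m + 1 = ((4 * m + 1 : ℕ) : ℤ) := by
      push_cast
      ring
    rw [e, Int.natAbs_natCast]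

lemma hge (i : Fin 2) (m : ℕ) (_ : (v i m).Prime) : m ≤ v i m := by
  fin_cases i
  · exact le_rfl
  · change m ≤ w m
    unfold w
    omega

lemma V_eq (H : Finset ℕ) (x : ℕ) : VV v H x = V H x := by
  classical
  unfold VV V nuV nu
  refine prod_congr rfl fun p _ => ?_
  have e : (range p).filter (fun n : ℕ => ∃ h ∈ H, ∃ i, p ∣ v i (n + h)) =
      (range p).filter (fun n : ℕ => ∃ h ∈ H, p ∣ n + h ∨ p ∣ w (n + h)) := by
    refine filter_congr fun n _ => exists_congr fun h => and_congr_right fun _ => ?_
    rw [Fin.exists_fin_two]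
    rfl
  congr 3
  convert congrArg Finset.card e

/-- **Exact patterns of places with almost prime `m` and `4m + 1` at integers with restricted digits,
uniformly in all admissible patterns with `k` elements and diameter up to a small multiple of the
expected mean distance of the places.** -/
theorem result (k D : ℕ) (hk : 1 ≤ k) :
    ∃ δ : ℝ, 0 < δ ∧ ∃ r₀ : ℕ, 2 ≤ r₀ ∧ ∀ r : ℕ, r₀ ≤ r → ∀ b : ℕ, 2 ≤ b →
      ∃ κ C c : ℝ, 0 < κ ∧ 0 < C ∧ 0 < c ∧
      ∀ᶠ K : ℕ in atTop, ∀ N : ℕ, N ≤ b ^ (D * K) →
        ∀ H : Finset ℕ, H.card = k → (∀ h ∈ H, (h : ℝ) ≤ c * (K : ℝ) ^ 2) → Admissible H →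
        ∀ A : ℕ → Finset ℕ, (∀ i < K, A i ⊆ range b) →
        (b : ℝ) ^ K ≤ Real.exp (δ * K) * choices K A →
        κ / (K : ℝ) ^ (2 * k) ≤ V H (b ^ K) ∧
        ((∃ e ∈ A 0, ∀ h ∈ H, (N + e + h).Coprime b ∧ (w (N + e + h)).Coprime b) →
          (∃ e ∈ A (K - 1), e ≠ 0) →
          κ * choices K A * V H (b ^ K) ≤ count b K A {n | b ^ (K - 1) ≤ n ∧
            (∀ j : ℕ, (j : ℝ) ≤ c * (K : ℝ) ^ 2 →
              ((Rough r (b ^ K) (N + n + j) ∧ Rough r (b ^ K) (w (N + n + j))) ↔ j ∈ H)) ∧
            ∀ h ∈ H, (N + n + h).primeFactorsList.length ≤ r ∧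
              (w (N + n + h)).primeFactorsList.length ≤ r}) ∧
        (count b K A {n | ∀ h ∈ H, (N + n + h).Prime ∧ (w (N + n + h)).Prime} : ℝ) ≤
          C * choices K A * V H (b ^ K) := by
  obtain ⟨δ, hδ, r₀, hr₀, h⟩ := exactV (by norm_num) (fun i => lin (al i) (be i)) sys
    (nt_lin al be al_pos al_inj) v hv hge k D hk
  refine ⟨δ, hδ, r₀, hr₀, fun r hr b hb => ?_⟩
  obtain ⟨κ, C, c, hκ, hC, hc, h1⟩ := h r hr b hb
  refine ⟨κ, C, c, hκ, hC, hc, ?_⟩
  filter_upwards [h1] with K hK N hN H hHk hHc hadm A hA hprod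
  simp only [Fin.forall_fin_two] at hK
  obtain ⟨h2, h3, h4⟩ := hK N hN H hHk hHc hadm A hA hprod
  rw [V_eq] at h2 h3 h4
  refine ⟨h2, fun hcop htop => ?_, h4⟩
  exact h3 hcop htop

end Pool.Agent.Results.MP_3df474_nt.ExactPatterns
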