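import Pool.Agent.V11150.RatM

/-!
# A third of ALL times are gaps between isolated consecutive primes of the orbits of `x ↦ 4 x + 1`

Let `S x = 4 x + 1`. There is an absolute constant `C` such that for all `R` and `ε > 0`, in every
sufficiently long window `u < j ≤ u + T` at least `(1 / 3 - ε) T` of ALL the times `j` have the following
property, for arbitrarily large `x`. For at least `x / (log x) ^ C` primes `p ≤ x` the number `S^j(p)` is
the first prime after `p` in the orbit of `p`, none of the next `R` numbers of the orbit is prime, and `p`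
is none of the first `R` numbers of the orbit of any prime. The question is the case `j = 1`.

Proof: the coloured Maynard-Tao theorem with the constant `18 / 5 < 4` and a power of the logarithm
(`Y827.RO.lamR0`: two of any four classes of forms), congruences which make the values at all other
times composite, a choice of one form from every class which keeps the forms more than `R` apart, and
the theorem on four classes and all multiples of two (`W432.UB.main`).
-/

set_option autoImplicit false

namespace Pool.Agent.Results.MP_3df474_nt.ThirdOfAllTimes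

open Filter

/-- `x ↦ 4 x + 1` -/
def S (x : ℕ) : ℕ := 4 * x + 1

theorem result : ∃ C : ℕ, ∀ (R : ℕ) (ε : ℝ), 0 < ε → ∃ L : ℕ, ∀ T : ℕ, L ≤ T → ∀ u : ℕ,
    (1 / 3 - ε) * (T : ℝ) ≤ ({j : ℕ | u < j ∧ j ≤ u + T ∧ ∃ᶠ x : ℕ in atTop,
      (x : ℝ) / (Real.log x) ^ C ≤ ({p : ℕ | p ≤ x ∧ p.Prime ∧ (S^[j] p).Prime ∧
        (∀ l, 0 < l → l < j → ¬ (S^[l] p).Prime) ∧
        ∀ l, 0 < l → l ≤ R → ¬ (S^[j + l] p).Prime ∧
          ∀ q : ℕ, q.Prime → S^[l] q ≠ p}.ncard : ℝ)}.ncard : ℝ) := by
  obtain ⟨C, hC⟩ := Pool.Agent.V11150.RatM.transfer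
  refine ⟨C, fun R ε hε => hC 4 1 (by norm_num) one_ne_zero isCoprime_one_right (by decide)
    (fun p j => S^[j] p) (fun p j _ => ?_) R ε hε⟩
  induction j with
  | zero =>
    rw [Pool.Agent.V11150.RatL.cj_zero]
    simp
  | succ j ih =>
    rw [Pool.Agent.V11150.RatL.cj_succ, Function.iterate_succ_apply']
    show ((4 * S^[j] p + 1 : ℕ) : ℤ) = _
    push_cast
    rw [ih]
    push_cast
    ring

end Pool.Agent.Results.MP_3df474_nt.ThirdOfAllTimes
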